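import Mathlib
import Pool.Agent.Helper70.MM.Goals

/-! Packet SING of the project MM. -/

open MeasureTheory Set Metric Filter
open scoped ENNReal RealInnerProductSpace Topology
open Pool.Agent.Results.MP_91ee6f_gt

namespace Pool.Agent.Helper32.MM

open Pool.Agent.Helper70.MM

lemma exp_half_le {x : ℝ} (h0 : 0 ≤ x) (h1 : x ≤ 1) : Real.exp x - 1 ≤ 2 * x := by
  have h := Real.abs_exp_sub_one_sub_id_le (x := x) (by rw [abs_of_nonneg h0]; exact h1)
  have h2 := (abs_le.1 h).2
  nlinarith

/-- the elementary inequality -/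
lemma two_term {E : Type*} [NormedAddCommGroup E] [InnerProductSpace ℝ E] (z v : E)
    (hv : ‖v‖ = 1) {t : ℝ} (ht : 0 < t) (hz : 0 < ‖z‖) :
    Real.exp (-‖z + t • v‖) + Real.exp (-‖z - t • v‖) ≤
      2 * Real.exp (-‖z‖) * Real.exp (t ^ 2 * ((⟪z, v⟫ / ‖z‖) ^ 2 / 2 -
        (1 - (⟪z, v⟫ / ‖z‖) ^ 2) / (2 * ‖z‖ + t))) := by
  set a := ‖z + t • v‖ with ha
  set b := ‖z - t • v‖ with hb
  set s := ‖z‖ with hs
  set q : ℝ := ⟪z, v⟫ with hq
  set c := q / s with hc
  have hqc : q = c * s := by rw [hc]; field_simp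
  have ha2 : a ^ 2 = s ^ 2 + 2 * t * q + t ^ 2 := by
    rw [ha, norm_add_sq_real, real_inner_smul_right, norm_smul, hv, Real.norm_eq_abs, mul_one,
      sq_abs]
    ring
  have hb2 : b ^ 2 = s ^ 2 - 2 * t * q + t ^ 2 := by
    rw [hb, norm_sub_sq_real, real_inner_smul_right, norm_smul, hv, Real.norm_eq_abs, mul_one,
      sq_abs]
    ring
  have ha0 : 0 ≤ a := norm_nonneg _
  have hb0 : 0 ≤ b := norm_nonneg _
  have hab : 2 * s ≤ a + b := by
    have : ‖(z + t • v) + (z - t • v)‖ ≤ a + b := norm_add_le _ _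
    have e : (z + t • v) + (z - t • v) = (2 : ℝ) • z := by rw [two_smul]; abel
    rw [e, norm_smul] at this
    simpa using this
  have hat : a ≤ s + t := by
    have := norm_add_le z (t • v)
    rw [norm_smul, hv, Real.norm_eq_abs, abs_of_pos ht, mul_one] at this
    exact this
  have hbt : b ≤ s + t := by
    have := norm_sub_le z (t • v)
    rw [norm_smul, hv, Real.norm_eq_abs, abs_of_pos ht, mul_one] at this
    exact this
  set A := (a + b) / 2 with hA
  set B := (a - b) / 2 with hB
  have hAs : s ≤ A := by rw [hA]; linarith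
  have hA0 : 0 < A := lt_of_lt_of_le hz hAs
  have hAB : A * B = t * q := by
    rw [hA, hB]; nlinarith
  have hAB2 : A ^ 2 + B ^ 2 = s ^ 2 + t ^ 2 := by
    rw [hA, hB]; nlinarith
  have hB2 : B ^ 2 ≤ t ^ 2 * c ^ 2 := by
    have h1 : A ^ 2 * B ^ 2 = t ^ 2 * c ^ 2 * s ^ 2 := by
      have : (A * B) ^ 2 = (t * q) ^ 2 := by rw [hAB]
      rw [hqc] at this
      nlinarith
    have h2 : s ^ 2 * B ^ 2 ≤ t ^ 2 * c ^ 2 * s ^ 2 := by
      rw [← h1]
      have : s ^ 2 ≤ A ^ 2 := by nlinarith
      nlinarith [sq_nonneg B]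
    have hs2 : 0 < s ^ 2 := by positivity
    nlinarith
  have hc1 : c ^ 2 ≤ 1 := by
    have h := abs_real_inner_le_norm z v
    rw [hv, mul_one, ← hs, ← hq] at h
    have h2 : |c| ≤ 1 := by
      rw [hc, abs_div, abs_of_pos hz, div_le_one hz]; exact h
    rw [← sq_abs]
    have := abs_nonneg c
    nlinarith
  have hAge : s + t ^ 2 * (1 - c ^ 2) / (2 * s + t) ≤ A := by
    have h1 : t ^ 2 * (1 - c ^ 2) ≤ (A - s) * (A + s) := by nlinarith
    have h2 : A + s ≤ 2 * s + t := by rw [hA]; linarith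
    have h3 : t ^ 2 * (1 - c ^ 2) ≤ (A - s) * (2 * s + t) := by
      have : 0 ≤ A - s := by linarith
      nlinarith
    have h4 : t ^ 2 * (1 - c ^ 2) / (2 * s + t) ≤ A - s := by
      rw [div_le_iff₀ (by linarith)]; exact h3
    linarith
  have hid : Real.exp (-a) + Real.exp (-b) = 2 * Real.exp (-A) * Real.cosh B := by
    rw [Real.cosh_eq]
    have e1 : Real.exp (-A) * Real.exp B = Real.exp (-b) := by
      rw [← Real.exp_add]; congr 1; rw [hA, hB]; ring
    have e2 : Real.exp (-A) * Real.exp (-B) = Real.exp (-a) := by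
      rw [← Real.exp_add]; congr 1; rw [hA, hB]; ring
    rw [← e1, ← e2]; ring
  rw [hid]
  have h5 : Real.cosh B ≤ Real.exp (B ^ 2 / 2) := Real.cosh_le_exp_half_sq B
  calc 2 * Real.exp (-A) * Real.cosh B ≤ 2 * Real.exp (-A) * Real.exp (B ^ 2 / 2) := by gcongr
    _ = 2 * Real.exp (-A + B ^ 2 / 2) := by rw [Real.exp_add]; ring
    _ ≤ 2 * Real.exp (-s + t ^ 2 * (c ^ 2 / 2 - (1 - c ^ 2) / (2 * s + t))) := by
        have e3 : t ^ 2 * (c ^ 2 / 2 - (1 - c ^ 2) / (2 * s + t)) =
            t ^ 2 * c ^ 2 / 2 - t ^ 2 * (1 - c ^ 2) / (2 * s + t) := by ring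
        have e4 : -A + B ^ 2 / 2 ≤
            -s + t ^ 2 * (c ^ 2 / 2 - (1 - c ^ 2) / (2 * s + t)) := by
          rw [e3]; linarith
        have e5 := Real.exp_le_exp.2 e4
        linarith
    _ = _ := by rw [Real.exp_add]; ring

lemma two_term_crude {E : Type*} [NormedAddCommGroup E] [InnerProductSpace ℝ E] (z v : E)
    (hv : ‖v‖ = 1) {t : ℝ} (ht : 0 < t) (ht1 : t ≤ 1) :
    Real.exp (-‖z + t • v‖) + Real.exp (-‖z - t • v‖) - 2 * Real.exp (-‖z‖) ≤ 2 * t ^ 2 := by
  set a := ‖z + t • v‖ with ha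
  set b := ‖z - t • v‖ with hb
  set s := ‖z‖ with hs
  have hs0 : 0 ≤ s := norm_nonneg _
  have hab : 2 * s ≤ a + b := by
    have : ‖(z + t • v) + (z - t • v)‖ ≤ a + b := norm_add_le _ _
    have e : (z + t • v) + (z - t • v) = (2 : ℝ) • z := by rw [two_smul]; abel
    rw [e, norm_smul] at this
    simpa using this
  have hd : |a - b| ≤ 2 * t := by
    have h := abs_norm_sub_norm_le (z + t • v) (z - t • v)
    have e : (z + t • v) - (z - t • v) = (2 * t) • v := by
      rw [two_mul, add_smul]; abel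
    rw [e, norm_smul, hv, Real.norm_eq_abs, mul_one,
      abs_of_pos (show (0 : ℝ) < 2 * t by linarith)] at h
    exact h
  set A := (a + b) / 2 with hA
  set B := (a - b) / 2 with hB
  have hid : Real.exp (-a) + Real.exp (-b) = 2 * Real.exp (-A) * Real.cosh B := by
    rw [Real.cosh_eq]
    have e1 : Real.exp (-A) * Real.exp B = Real.exp (-b) := by
      rw [← Real.exp_add]; congr 1; rw [hA, hB]; ring
    have e2 : Real.exp (-A) * Real.exp (-B) = Real.exp (-a) := by
      rw [← Real.exp_add]; congr 1; rw [hA, hB]; ring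
    rw [← e1, ← e2]; ring
  rw [hid]
  have h5 : Real.cosh B ≤ Real.exp (B ^ 2 / 2) := Real.cosh_le_exp_half_sq B
  have hB2 : B ^ 2 ≤ t ^ 2 := by
    have : |B| ≤ t := by
      rw [hB, abs_div, abs_of_pos (by norm_num : (0:ℝ) < 2)]; linarith
    rw [← sq_abs B]
    have := abs_nonneg B
    nlinarith
  have h6 : Real.exp (B ^ 2 / 2) ≤ Real.exp (t ^ 2 / 2) := by gcongr
  have h7 : Real.exp (t ^ 2 / 2) - 1 ≤ 2 * (t ^ 2 / 2) :=
    exp_half_le (by positivity) (by nlinarith)
  have h8 : Real.exp (-A) ≤ Real.exp (-s) := by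
    apply Real.exp_le_exp.2; rw [hA]; linarith
  have h9 : Real.exp (-s) ≤ 1 := by rw [Real.exp_le_one_iff]; linarith
  have h10 := Real.exp_pos (-s)
  have h11 := Real.exp_pos (-A)
  have h12 : Real.exp (-A) * Real.cosh B ≤ Real.exp (-s) * Real.exp (t ^ 2 / 2) :=
    mul_le_mul h8 (h5.trans h6) (Real.cosh_pos B).le h10.le
  have h13 : Real.exp (-s) * (Real.exp (t ^ 2 / 2) - 1) ≤ 1 * (2 * (t ^ 2 / 2)) := by
    have : 0 ≤ Real.exp (t ^ 2 / 2) - 1 := by
      have := Real.one_le_exp (x := t ^ 2 / 2) (by positivity)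
      linarith
    exact mul_le_mul h9 h7 this (by norm_num)
  nlinarith

lemma pot_integrable {n : ℕ} (ν : Measure (En n)) [IsFiniteMeasure ν] (x : En n) :
    Integrable (fun y => Real.exp (-dist x y)) ν := by
  apply Integrable.of_bound (C := 1)
  · exact (by fun_prop : Continuous (fun y => Real.exp (-dist x y))).aestronglyMeasurable
  · filter_upwards with y
    rw [Real.norm_eq_abs, abs_of_pos (Real.exp_pos _), Real.exp_le_one_iff]
    have := dist_nonneg (x := x) (y := y)
    linarith

/-- the second difference quotient -/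
noncomputable def SS {n k : ℕ} (p : En n) (v : Fin k → En n) (t : ℝ) (y : En n) : ℝ :=
  (∑ i, (Real.exp (-dist (p + t • v i) y) + Real.exp (-dist (p - t • v i) y)
    - 2 * Real.exp (-dist p y))) / t ^ 2

lemma SS_cont {n k : ℕ} (p : En n) (v : Fin k → En n) (t : ℝ) : Continuous (SS p v t) := by
  unfold SS
  fun_prop

lemma SS_le {n k : ℕ} (p : En n) (v : Fin k → En n) (hv : ∀ i, ‖v i‖ = 1) {t : ℝ} (ht : 0 < t)
    (ht1 : t ≤ 1) (y : En n) : SS p v t y ≤ 2 * k := by
  unfold SS
  rw [div_le_iff₀ (by positivity)]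
  calc _ ≤ ∑ _i : Fin k, 2 * t ^ 2 := by
        apply Finset.sum_le_sum
        intro i _
        have h := two_term_crude (p - y) (v i) (hv i) ht ht1
        rw [dist_eq_norm, dist_eq_norm, dist_eq_norm]
        have e1 : p + t • v i - y = p - y + t • v i := by abel
        have e2 : p - t • v i - y = p - y - t • v i := by abel
        rw [e1, e2]; exact h
    _ = 2 * k * t ^ 2 := by
        rw [Finset.sum_const, Finset.card_univ, Fintype.card_fin, nsmul_eq_mul]; ring

lemma SS_int {n k : ℕ} (ν : Measure (En n)) [IsFiniteMeasure ν] (p : En n) (v : Fin k → En n)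
    (t : ℝ) : Integrable (SS p v t) ν ∧ ∫ y, SS p v t y ∂ν =
      (∑ i, (potential ν (p + t • v i) + potential ν (p - t • v i) - 2 * potential ν p)) / t ^ 2 := by
  have h1 : ∀ i : Fin k, Integrable (fun y => Real.exp (-dist (p + t • v i) y) +
      Real.exp (-dist (p - t • v i) y) - 2 * Real.exp (-dist p y)) ν := fun i =>
    ((pot_integrable ν _).add (pot_integrable ν _)).sub ((pot_integrable ν _).const_mul 2)
  constructor
  · exact (integrable_finset_sum _ (fun i _ => h1 i)).div_const _
  · unfold SS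
    rw [integral_div, integral_finset_sum _ (fun i _ => h1 i)]
    congr 1
    apply Finset.sum_congr rfl
    intro i _
    have h2 : Integrable (fun y => Real.exp (-dist (p + t • v i) y) +
      Real.exp (-dist (p - t • v i) y)) ν := (pot_integrable ν _).add (pot_integrable ν _)
    have h3 : Integrable (fun y => 2 * Real.exp (-dist p y)) ν :=
      (pot_integrable ν _).const_mul 2
    rw [integral_sub h2 h3, integral_add (pot_integrable ν _) (pot_integrable ν _),
      integral_const_mul]
    rfl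

lemma lim_one {c s : ℝ} (hs : 0 < s) :
    ∀ ε > 0, ∀ᶠ t : ℝ in 𝓝[>] 0,
      (2 * Real.exp (-s) * Real.exp (t ^ 2 * (c ^ 2 / 2 - (1 - c ^ 2) / (2 * s + t))) -
        2 * Real.exp (-s)) / t ^ 2 ≤ Real.exp (-s) * (c ^ 2 - (1 - c ^ 2) / s) + ε := by
  intro ε hε
  set w : ℝ → ℝ := fun t => c ^ 2 / 2 - (1 - c ^ 2) / (2 * s + t) with hw
  have hwc : Tendsto w (𝓝[>] 0) (𝓝 (w 0)) := by
    apply tendsto_nhdsWithin_of_tendsto_nhds
    have : ContinuousAt w 0 := by
      rw [hw]
      apply ContinuousAt.sub continuousAt_const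
      apply ContinuousAt.div continuousAt_const (by fun_prop)
      simp; linarith
    exact this
  have ht : Tendsto (fun t : ℝ => t ^ 2) (𝓝[>] 0) (𝓝 0) := by
    apply tendsto_nhdsWithin_of_tendsto_nhds
    have : Continuous (fun t : ℝ => t ^ 2) := by fun_prop
    have h := this.tendsto 0
    simpa using h
  have hx : Tendsto (fun t : ℝ => t ^ 2 * w t) (𝓝[>] 0) (𝓝 0) := by
    have := ht.mul hwc
    simpa using this
  have hlim : Tendsto (fun t : ℝ => 2 * Real.exp (-s) * (w t + t ^ 2 * (w t) ^ 2)) (𝓝[>] 0)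
      (𝓝 (2 * Real.exp (-s) * (w 0 + 0 * (w 0) ^ 2))) :=
    (hwc.add (ht.mul (hwc.pow 2))).const_mul _
  have e0 : 2 * Real.exp (-s) * (w 0 + 0 * (w 0) ^ 2) =
      Real.exp (-s) * (c ^ 2 - (1 - c ^ 2) / s) := by
    simp only [hw, add_zero]; field_simp
    ring
  rw [e0] at hlim
  have h1 : ∀ᶠ t : ℝ in 𝓝[>] 0, 2 * Real.exp (-s) * (w t + t ^ 2 * (w t) ^ 2) <
      Real.exp (-s) * (c ^ 2 - (1 - c ^ 2) / s) + ε :=
    hlim.eventually (gt_mem_nhds (by linarith))
  have h2 : ∀ᶠ t : ℝ in 𝓝[>] 0, |t ^ 2 * w t| < 1 := by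
    have := hx.abs
    rw [abs_zero] at this
    exact this.eventually (gt_mem_nhds one_pos)
  filter_upwards [h1, h2, self_mem_nhdsWithin] with t ht1 ht2 ht3
  have ht3' : (0 : ℝ) < t := ht3
  refine le_trans ?_ ht1.le
  rw [div_le_iff₀ (by positivity)]
  have h := Real.abs_exp_sub_one_sub_id_le (x := t ^ 2 * w t) ht2.le
  have h3 := (abs_le.1 h).2
  have h4 := Real.exp_pos (-s)
  have h5 : Real.exp (t ^ 2 * w t) - 1 ≤ t ^ 2 * w t + (t ^ 2 * w t) ^ 2 := by linarith
  have h6 := mul_le_mul_of_nonneg_left h5 (by positivity : 0 ≤ 2 * Real.exp (-s))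
  calc _ = 2 * Real.exp (-s) * (Real.exp (t ^ 2 * w t) - 1) := by simp only [hw]; ring
    _ ≤ _ := h6
    _ = _ := by ring

/-- pointwise upper limit away from `p` -/
lemma SS_limsup {n k : ℕ} (p : En n) (v : Fin k → En n) (hv : Orthonormal ℝ v) (y : En n)
    (hy : y ≠ p) : ∀ ε > 0, ∀ᶠ t : ℝ in 𝓝[>] 0,
      SS p v t y ≤ Real.exp (-dist p y) * (1 - (k - 1) / dist p y) + ε := by
  intro ε hε
  set s := dist p y with hs
  have hs0 : 0 < s := by rw [hs]; exact dist_pos.2 (Ne.symm hy)
  have hsn : ‖p - y‖ = s := by rw [hs, dist_eq_norm]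
  set c : Fin k → ℝ := fun i => ⟪p - y, v i⟫ / s with hc
  have hbes : ∑ i, c i ^ 2 ≤ 1 := by
    have h := hv.sum_inner_products_le (x := p - y) (s := Finset.univ)
    have h2 : ∑ i, ⟪p - y, v i⟫ ^ 2 ≤ s ^ 2 := by
      rw [← hsn]
      refine le_trans (le_of_eq ?_) h
      apply Finset.sum_congr rfl
      intro i _
      rw [real_inner_comm, Real.norm_eq_abs, sq_abs]
    have h3 : ∑ i, c i ^ 2 = (∑ i, ⟪p - y, v i⟫ ^ 2) / s ^ 2 := by
      rw [Finset.sum_div]
      apply Finset.sum_congr rfl
      intro i _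
      simp only [hc]; rw [div_pow]
    rw [h3, div_le_one (by positivity)]; exact h2
  have hev : ∀ᶠ t : ℝ in 𝓝[>] 0, ∀ i : Fin k,
      (2 * Real.exp (-s) * Real.exp (t ^ 2 * ((c i) ^ 2 / 2 - (1 - (c i) ^ 2) / (2 * s + t))) -
        2 * Real.exp (-s)) / t ^ 2 ≤
        Real.exp (-s) * ((c i) ^ 2 - (1 - (c i) ^ 2) / s) + ε / (k + 1) := by
    rw [eventually_all]
    intro i
    exact lim_one hs0 _ (by positivity)
  filter_upwards [hev, self_mem_nhdsWithin] with t ht ht0
  have ht0' : (0 : ℝ) < t := ht0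
  have h1 : SS p v t y ≤ ∑ i : Fin k,
      (Real.exp (-s) * ((c i) ^ 2 - (1 - (c i) ^ 2) / s) + ε / (k + 1)) := by
    unfold SS
    rw [Finset.sum_div]
    apply Finset.sum_le_sum
    intro i _
    refine le_trans ?_ (ht i)
    gcongr
    have h := two_term (p - y) (v i) (hv.1 i) ht0' (by rw [hsn]; exact hs0)
    rw [dist_eq_norm, dist_eq_norm]
    have e1 : p + t • v i - y = p - y + t • v i := by abel
    have e2 : p - t • v i - y = p - y - t • v i := by abel
    rw [e1, e2]
    rw [hsn] at h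
    have h' : Real.exp (-‖p - y + t • v i‖) + Real.exp (-‖p - y - t • v i‖) ≤
        2 * Real.exp (-s) * Real.exp (t ^ 2 * ((c i) ^ 2 / 2 -
        (1 - (c i) ^ 2) / (2 * s + t))) := h
    linarith
  refine h1.trans ?_
  rw [Finset.sum_add_distrib, ← Finset.mul_sum, Finset.sum_const, Finset.card_univ,
    Fintype.card_fin, nsmul_eq_mul]
  have h2 : ∑ i : Fin k, ((c i) ^ 2 - (1 - (c i) ^ 2) / s) ≤ 1 - (k - 1) / s := by
    have e : ∑ i : Fin k, ((c i) ^ 2 - (1 - (c i) ^ 2) / s) =
        (∑ i, c i ^ 2) * (1 + 1 / s) - k / s := by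
      rw [Finset.sum_sub_distrib, ← Finset.sum_div, Finset.sum_sub_distrib, Finset.sum_const,
        Finset.card_univ, Fintype.card_fin, nsmul_eq_mul]
      ring
    rw [e]
    have h3 : (∑ i, c i ^ 2) * (1 + 1 / s) ≤ 1 * (1 + 1 / s) :=
      mul_le_mul_of_nonneg_right hbes (by positivity)
    have e2 : (1 : ℝ) - (k - 1) / s = 1 * (1 + 1 / s) - k / s := by ring
    rw [e2]; linarith
  have h4 : (k : ℝ) * (ε / (k + 1)) ≤ ε := by
    rw [mul_div_assoc', div_le_iff₀ (by positivity)]
    nlinarith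
  have h5 := mul_le_mul_of_nonneg_left h2 (Real.exp_pos (-s)).le
  linarith

theorem sing : SING := by
  intro n k ν hν p v hv hδ
  rcases Nat.lt_or_ge k 2 with hk | hk
  · have : ((k : ℝ≥0∞) - 1) = 0 := by
      apply tsub_eq_zero_of_le
      have : (k : ℕ) ≤ 1 := by omega
      exact_mod_cast this
    rw [this, zero_mul]; exact bot_le
  have := hν
  obtain ⟨δ, hδ0, hδ⟩ := hδ
  set C : ℝ := 2 * k with hC
  have hk2 : (2 : ℝ) ≤ k := by exact_mod_cast hk
  have hC1 : (1 : ℝ) ≤ C := by rw [hC]; linarith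
  -- times
  set tm : ℕ → ℝ := fun m => 1 / ((m : ℝ) + 1) with htm
  have htm0 : ∀ m, 0 < tm m := fun m => by simp only [htm]; positivity
  have htm1 : ∀ m, tm m ≤ 1 := fun m => by
    simp only [htm]; rw [div_le_one (by positivity)]
    have : (0 : ℝ) ≤ m := Nat.cast_nonneg m
    linarith
  have html : Tendsto tm atTop (𝓝[>] 0) := by
    rw [tendsto_nhdsWithin_iff]
    exact ⟨tendsto_one_div_add_atTop_nhds_zero_nat, Eventually.of_forall htm0⟩
  -- upper bound of the integrals
  have hup : ∀ᶠ m in atTop, ∫⁻ y, ENNReal.ofReal (C - SS p v (tm m) y) ∂ν ≤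
      ENNReal.ofReal C * ν univ := by
    have hev : ∀ᶠ m in atTop, tm m < δ :=
      (tendsto_one_div_add_atTop_nhds_zero_nat (𝕜 := ℝ)).eventually (gt_mem_nhds hδ0)
    filter_upwards [hev] with m hm
    obtain ⟨hI, hE⟩ := SS_int ν p v (tm m)
    have hnn : 0 ≤ ∫ y, SS p v (tm m) y ∂ν := by
      rw [hE]
      apply div_nonneg _ (by positivity)
      apply Finset.sum_nonneg
      intro i _
      have h1 := hδ (tm m) (by rw [abs_of_pos (htm0 m)]; exact hm) i
      have h2 := hδ (-tm m) (by rw [abs_neg, abs_of_pos (htm0 m)]; exact hm) i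
      rw [neg_smul, ← sub_eq_add_neg] at h2
      linarith
    have hI2 : Integrable (fun y => C - SS p v (tm m) y) ν := (integrable_const C).sub hI
    rw [← ofReal_integral_eq_lintegral_ofReal hI2 (by
      filter_upwards with y
      have := SS_le p v hv.1 (htm0 m) (htm1 m) y
      simp only [Pi.zero_apply]; linarith)]
    rw [integral_sub (integrable_const C) hI, integral_const, smul_eq_mul]
    have e : ENNReal.ofReal C * ν univ = ENNReal.ofReal (ν.real univ * C) := by
      rw [mul_comm (ν.real univ), ENNReal.ofReal_mul (p := C) (q := ν.real univ) (by linarith),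
        ofReal_measureReal (measure_ne_top ν univ)]
    rw [e]
    apply ENNReal.ofReal_le_ofReal
    linarith
  -- Fatou
  have hfat : ∫⁻ y, liminf (fun m => ENNReal.ofReal (C - SS p v (tm m) y)) atTop ∂ν ≤
      ENNReal.ofReal C * ν univ := by
    refine (lintegral_liminf_le (fun m => ?_)).trans ?_
    · exact (ENNReal.continuous_ofReal.comp
        (continuous_const.sub (SS_cont p v (tm m)))).measurable
    · calc liminf (fun m => ∫⁻ y, ENNReal.ofReal (C - SS p v (tm m) y) ∂ν) atTop
          ≤ liminf (fun _ : ℕ => ENNReal.ofReal C * ν univ) atTop := liminf_le_liminf hup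
        _ = _ := liminf_const _
  -- pointwise
  have hpt : ∀ y, ENNReal.ofReal (C - Real.exp (-dist p y)) +
      ((k : ℝ≥0∞) - 1) * (ENNReal.ofReal (Real.exp (-dist p y)) / edist p y) ≤
      liminf (fun m => ENNReal.ofReal (C - SS p v (tm m) y)) atTop := by
    intro y
    by_cases hy : y = p
    · subst hy
      have htop : Tendsto (fun m => ENNReal.ofReal (C - SS y v (tm m) y)) atTop (𝓝 ∞) := by
        apply ENNReal.tendsto_ofReal_nhds_top.2
        have hS : ∀ m : ℕ, ((k : ℝ) / 2) * ((m : ℝ) + 1) ≤ C - SS y v (tm m) y := by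
          intro m
          have e1 : SS y v (tm m) y = 2 * k * (Real.exp (-tm m) - 1) / tm m ^ 2 := by
            unfold SS
            congr 1
            have : ∀ i : Fin k, Real.exp (-dist (y + tm m • v i) y) +
                Real.exp (-dist (y - tm m • v i) y) - 2 * Real.exp (-dist y y) =
                2 * (Real.exp (-tm m) - 1) := by
              intro i
              rw [dist_eq_norm, dist_eq_norm, dist_self, neg_zero, Real.exp_zero,
                add_sub_cancel_left, sub_sub_cancel_left, norm_neg, norm_smul, hv.1 i,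
                Real.norm_eq_abs, abs_of_pos (htm0 m), mul_one]
              ring
            rw [Finset.sum_congr rfl (fun i _ => this i), Finset.sum_const, Finset.card_univ,
              Fintype.card_fin, nsmul_eq_mul]
            ring
          have h2 : Real.exp (-tm m) - 1 ≤ -(tm m / 4) := by
            have h := Real.abs_exp_sub_one_sub_id_le (x := -(tm m / 2)) (by
              rw [abs_neg, abs_of_pos (by have := htm0 m; linarith)]
              have := htm1 m; linarith)
            have h3 := (abs_le.1 h).2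
            have h4 : Real.exp (-tm m) = Real.exp (-(tm m / 2)) * Real.exp (-(tm m / 2)) := by
              rw [← Real.exp_add]; congr 1; ring
            have h5 := Real.exp_pos (-(tm m / 2))
            have h6 := htm0 m
            have h7 := htm1 m
            have h10 : Real.exp (-(tm m / 2)) ≤ 1 - tm m / 4 := by nlinarith
            have h11 : Real.exp (-(tm m / 2)) * Real.exp (-(tm m / 2)) ≤
                (1 - tm m / 4) * (1 - tm m / 4) :=
              mul_le_mul h10 h10 h5.le (by linarith)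
            rw [h4]
            nlinarith
          rw [e1]
          have h3 : 2 * (k : ℝ) * (Real.exp (-tm m) - 1) / tm m ^ 2 ≤
              2 * k * (-(tm m / 4)) / tm m ^ 2 := by gcongr
          have h4 : 2 * (k : ℝ) * (-(tm m / 4)) / tm m ^ 2 = -((k / 2) * (m + 1)) := by
            have : tm m ≠ 0 := (htm0 m).ne'
            have e : (1 : ℝ) / tm m = m + 1 := by simp [htm]
            rw [← e]; field_simp; norm_num
          linarith
        apply tendsto_atTop_mono hS
        apply Tendsto.const_mul_atTop (by linarith)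
        exact tendsto_atTop_add_const_right _ _ tendsto_natCast_atTop_atTop
      rw [htop.liminf_eq]
      exact le_top
    · set s := dist p y with hs
      have hs0 : 0 < s := by rw [hs]; exact dist_pos.2 (Ne.symm hy)
      have hes : edist p y = ENNReal.ofReal s := edist_dist p y
      have hexp1 : Real.exp (-s) ≤ 1 := by rw [Real.exp_le_one_iff]; linarith
      have hkk : ((k : ℝ≥0∞) - 1) = ENNReal.ofReal ((k : ℝ) - 1) := by
        rw [ENNReal.ofReal_sub _ zero_le_one, ENNReal.ofReal_natCast, ENNReal.ofReal_one]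
      have hlhs : ENNReal.ofReal (C - Real.exp (-s)) +
          ((k : ℝ≥0∞) - 1) * (ENNReal.ofReal (Real.exp (-s)) / edist p y) =
          ENNReal.ofReal (C - Real.exp (-s) * (1 - (k - 1) / s)) := by
        rw [hes, hkk, ← ENNReal.ofReal_div_of_pos hs0, ← ENNReal.ofReal_mul (by linarith),
          ← ENNReal.ofReal_add (by linarith)
            (mul_nonneg (by linarith) (div_nonneg (Real.exp_pos _).le hs0.le))]
        congr 1
        field_simp
        ring
      rw [hlhs]
      -- liminf
      apply le_of_forall_lt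
      intro a ha
      obtain ⟨ε, hε0, hε⟩ : ∃ ε > 0, a < ENNReal.ofReal (C - Real.exp (-s) * (1 - (k - 1) / s) - ε) := by
        have hcont : Tendsto (fun ε : ℝ => ENNReal.ofReal
            (C - Real.exp (-s) * (1 - (k - 1) / s) - ε)) (𝓝[>] 0)
            (𝓝 (ENNReal.ofReal (C - Real.exp (-s) * (1 - (k - 1) / s) - 0))) := by
          apply tendsto_nhdsWithin_of_tendsto_nhds
          exact (ENNReal.continuous_ofReal.comp (continuous_const.sub continuous_id)).tendsto 0
        rw [sub_zero] at hcont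
        have h1 := hcont.eventually (lt_mem_nhds ha)
        obtain ⟨ε, h2, h3⟩ := (h1.and self_mem_nhdsWithin).exists
        exact ⟨ε, h3, h2⟩
      refine lt_of_lt_of_le hε ?_
      apply le_liminf_of_le
      · isBoundedDefault
      · have h1 := html.eventually (SS_limsup p v hv y hy ε hε0)
        filter_upwards [h1] with m hm
        apply ENNReal.ofReal_le_ofReal
        linarith
  -- conclusion
  have hmeas1 : Measurable (fun y : En n => ENNReal.ofReal (C - Real.exp (-dist p y))) := by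
    fun_prop
  have hle1 : ∫⁻ y, ENNReal.ofReal (C - Real.exp (-dist p y)) ∂ν +
      ((k : ℝ≥0∞) - 1) * ∫⁻ y, ENNReal.ofReal (Real.exp (-dist p y)) / edist p y ∂ν ≤
      ENNReal.ofReal C * ν univ := by
    rw [← lintegral_const_mul' _ _ (ENNReal.sub_ne_top (ENNReal.natCast_ne_top k)),
      ← lintegral_add_left hmeas1]
    exact (lintegral_mono hpt).trans hfat
  have hsplit : ENNReal.ofReal C * ν univ = ∫⁻ y, ENNReal.ofReal (C - Real.exp (-dist p y)) ∂ν +
      ∫⁻ y, ENNReal.ofReal (Real.exp (-dist p y)) ∂ν := by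
    rw [← lintegral_add_left hmeas1, ← lintegral_const]
    apply lintegral_congr
    intro y
    have : Real.exp (-dist p y) ≤ 1 := by
      rw [Real.exp_le_one_iff]
      have := dist_nonneg (x := p) (y := y)
      linarith
    rw [← ENNReal.ofReal_add (by linarith) (Real.exp_pos _).le]
    congr 1; ring
  rw [hsplit] at hle1
  have hfin : ∫⁻ y, ENNReal.ofReal (C - Real.exp (-dist p y)) ∂ν ≠ ∞ := by
    have : ∫⁻ y, ENNReal.ofReal (C - Real.exp (-dist p y)) ∂ν ≤ ∫⁻ _y, ENNReal.ofReal C ∂ν := by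
      apply lintegral_mono
      intro y
      apply ENNReal.ofReal_le_ofReal
      have := Real.exp_pos (-dist p y)
      linarith
    refine ne_top_of_le_ne_top ?_ this
    rw [lintegral_const]
    exact ENNReal.mul_ne_top ENNReal.ofReal_ne_top (measure_ne_top ν univ)
  exact (ENNReal.add_le_add_iff_left hfin).1 hle1

end Pool.Agent.Helper32.MM
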